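import Pool.Agent.Lib.MP_d610d0_nt.CH.Ifc

/-!
Section M2 (numerics of the almost primes with 4, ..., 7 prime factors): statements of the pieces.

`z = zJ J = (3 J) ^ (3/8)`, so `z ^ 8 = 27 J ^ 3` and `8 log z = 3 log J + 3 log 3`;
`x = x_j = (j + 1/2) ^ 3`, `J < j ≤ 2 J`, so `J ^ 3 ≤ x ≤ (5/2 * J) ^ 3 = 15.625 J ^ 3`.
-/

set_option autoImplicit false

namespace Pool.Agent.CH.M2

open Finset
open Pool.Agent.MP89da58 (tri)

/-! ### Hypotheses from the other sections -/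

/-- The prime number theorem with all powers of the logarithm (section P). -/
def I_pnt : Prop := ∀ A : ℕ, ∃ C : ℝ, ∀ M : ℕ, 2 ≤ M →
  |∑ m ∈ Icc 1 M, ArithmeticFunction.vonMangoldt m - (M : ℝ)| ≤ C * M / Real.log M ^ A

/-- Comparison of the short windows with long windows of logarithmic half width `1 / (log J) ^ E`
for the almost primes `RR` (section D). -/
def I_cmp : Prop := ∀ A : ℕ, ∃ (E : ℕ) (C : ℝ), 1 ≤ E ∧ ∀ J : ℕ, 2 ≤ J →
  ∑ j ∈ Ioc J (2 * J), (2 * (J : ℝ) * ∑ n ∈ Icc 1 (27 * J ^ 3), RR (zJ J) n * wJ J j n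
    - Real.log J ^ E * ∑ n ∈ Icc 1 (27 * J ^ 3), RR (zJ J) n * wL (Real.log J ^ E) j n) ^ 2
    ≤ C * (J : ℝ) ^ 7 / Real.log J ^ A

/-! ### Definitions -/

/-- The primes in `[z, N]`. -/
noncomputable def Sp (z : ℝ) (N : ℕ) : Finset ℕ :=
  (range (N + 1)).filter (fun p : ℕ => p.Prime ∧ z ≤ p)

/-- The sum of `h` over the products of the `r`-tuples of elements of `S`. -/
noncomputable def TS (S : Finset ℕ) (r : ℕ) (h : ℕ → ℝ) : ℝ :=
  ∑ q ∈ Fintype.piFinset (fun _ : Fin r => S), h (∏ i, q i)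

/-- One step of the recursion for the cells. -/
noncomputable def Ust (a Φ : ℕ → ℝ) : ℕ → ℝ := fun s => ∑ i ∈ range 112, a i * Φ (s + i)

/-- Upper bound for the sum of `1 / p` over the cell `i`. -/
noncomputable def aR (i : ℕ) : ℝ := if 16 ≤ i then 1.01 * (2 * i + 1) / (2 * i * (i + 1)) else 0

/-- The cell of `p`: `z ^ (i / 16) ≤ p < z ^ ((i + 1) / 16)` for `i = mz z p`. -/
noncomputable def mz (z : ℝ) (p : ℕ) : ℕ := ⌊16 * Real.log p / Real.log z⌋₊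

/-- Upper bound for `log z / log (x / P)` if `P` is a product of `r` primes in the cells
`m_1, ..., m_r`, `M = m_1 + ... + m_r`, and `P < z ^ 7`. -/
noncomputable def Ph (r M : ℕ) : ℝ := if M < 112 then 16 / ((max 16 (128 - M - r) : ℕ) : ℝ) else 0

/-! ### Combinatorics of tuples -/

/-- **Piece tup1** (40 lines).

Proof. For `n ≤ N` the tuples counted by `Rk z k n` (see `Rk` in CH/Defs) are tuples with entries in
`Sp z N` (as `n ≤ N`) with product `n`. So `k! * Rk z k n * h n ≤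
∑ q ∈ (piFinset (Sp z N)).filter (∏ q i = n), h (∏ q i)`; sum over `n ∈ Icc 1 N`: different `n` give
disjoint sets of tuples, and `h ≥ 0` for the tuples which do not occur
(`Finset.sum_fiberwise_of_maps_to` on the subset `∏ q i ∈ Icc 1 N`, `Finset.sum_filter`,
`Finset.sum_comm`). -/
def S_tup1 : Prop := ∀ (z : ℝ) (N k : ℕ) (h : ℕ → ℝ), (∀ n, 0 ≤ h n) →
  ∑ n ∈ Icc 1 N, Rk z k n * h n ≤ TS (Sp z N) k h / k.factorial

/-- **Piece tup2** (30 lines): split off the first coordinate (`Fin.cons`, `Fin.consEquiv`,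
`Fin.prod_univ_succ`, `Fintype.mem_piFinset`; e.g. `Finset.sum_bij'` from the product set
`S ×ˢ piFinset`, then `Finset.sum_product_right'`). -/
def S_tup2 : Prop := ∀ (S : Finset ℕ) (r : ℕ) (h : ℕ → ℝ),
  TS S (r + 1) h = TS S r (fun P => ∑ p ∈ S, h (p * P))

/-- **Piece tup3** (50 lines): sums over tuples are bounded by the recursion on the cells.

Proof. More generally, for all `s` by induction on `r`:
`∑_q (∏ w (q i)) * Φ (s + ∑ m (q i)) ≤ ((Ust a)^[r] Φ) s`. Step: split off the first coordinate `p`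
(as in `tup2`), apply the induction hypothesis with `s + m p`:
`∑_{p ∈ S} w p * Ψ (s + m p)` with `Ψ = (Ust a)^[r] Φ ≥ 0` (as `a i ≥ ∑ w ≥ 0` for `i < 112`), and
`Ψ i = 0` for `112 ≤ i`; sort by the value `i = m p` (`Finset.sum_fiberwise`, only `i < 112` matters):
`≤ ∑_{i < 112} a i * Ψ (s + i) = (Ust a Ψ) s`, and `Function.iterate_succ_apply'`. -/
def S_tup3 : Prop := ∀ (S : Finset ℕ) (m : ℕ → ℕ) (w a Φ : ℕ → ℝ) (r : ℕ),
  (∀ p ∈ S, 0 ≤ w p) → (∀ i, 0 ≤ Φ i) → (∀ i, 112 ≤ i → Φ i = 0) →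
  (∀ i, i < 112 → ∑ p ∈ S.filter (fun p => m p = i), w p ≤ a i) →
  ∑ q ∈ Fintype.piFinset (fun _ : Fin r => S), (∏ i, w (q i)) * Φ (∑ i, m (q i)) ≤
    ((Ust a)^[r] Φ) 0

/-! ### Prime sums -/

/-- **Piece log2** (10 lines): `log t ≤ sinh (log t) = (t - 1/t) / 2` for `t = (i + 1) / i ≥ 1`
(`Real.self_le_sinh_iff`, `Real.sinh_log`). -/
def S_log2 : Prop := ∀ i : ℕ, 1 ≤ i →
  Real.log (((i : ℝ) + 1) / i) ≤ (2 * i + 1) / (2 * i * (i + 1))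

/-- **Piece mer** (90 lines): upper bound in Mertens' theorem for the sum of `1 / p`.

Proof. Use `Asum m = ∑_{p ≤ m} log p / (p - 1)` with `Asum_lower : log (m + 1) - 1 ≤ Asum m` and
`Asum_upper : Asum m ≤ log m + 0.228` for `m ≥ 4000` (Lib/MP_d610d0_nt/Mert.lean, Mert2.lean,
namespace `Pool.Agent.Lib.MP_d610d0_nt`; sets of primes `Pm`, `Pab`, `sum_Pab_succ`). `Asum` is
monotone, so `Asum m ≤ log m + 9` for all `m ≥ 1` (for `m < 4000`: `≤ log 4000 + 0.228 ≤ 9`). Let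
`n0 ≥ 2` be a natural number and, for `n ≥ n0`, `E n = ∑_{n0 ≤ p ≤ n} log p / p`, so
`E n ≤ Asum n - Asum (n0 - 1) ≤ log n - log n0 + C1` with `C1 = 10`. CLAIM: for `n ≥ n0`
`∑_{n0 ≤ p ≤ n} 1/p - E n / log n ≤ log (log n / log n0) + (C1 - log n0) (1/log n0 - 1/log n)`.
Induction on `n`: for `n = n0` both sides are `0`. Step: on the left a possible new prime `n + 1`
contributes `1/(n+1) - (log (n+1)/(n+1)) / log (n+1) = 0`, so the left side grows by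
`E n * (1/log n - 1/log (n+1)) ≤ (log n - log n0 + C1) (1/log n - 1/log (n+1))`, and
`log n * (1/log n - 1/log (n+1)) = 1 - log n / log (n+1) ≤ log (log (n+1) / log n)`
(`Real.one_sub_inv_le_log_of_pos`). With `E n / log n ≤ 1 + (C1 - log n0) / log n`:
`∑_{n0 ≤ p ≤ n} 1/p ≤ log (log n / log n0) + C1 / log n0`. Finally `n0 = ⌈a⌉₊`, `n = ⌊b⌋₊` (if
`n < n0` the set `S` is empty and the right side is `≥ 0`), `log n ≤ log b`, `log a ≤ log n0`. -/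
def S_mer : Prop := ∃ C : ℝ, 0 ≤ C ∧ ∀ (S : Finset ℕ) (a b : ℝ), 2 ≤ a → a ≤ b →
  (∀ p ∈ S, p.Prime ∧ a ≤ p ∧ (p : ℝ) ≤ b) →
  ∑ p ∈ S, 1 / (p : ℝ) ≤ Real.log (Real.log b / Real.log a) + C / Real.log a

/-- **Piece cell** (60 lines, uses `S_log2, S_mer`): the sum of `1 / p` over the cell `i`.

Proof. Let `z = zJ J`, `C` from `S_mer`, `J0` so large that `z ≥ 2` and `log z ≥ 11200 C`
(`log z = (3/8) log (3 J)`). If `i < 16`: the filter is empty, since `p ≥ z` gives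
`16 log p / log z ≥ 16`, so `mz z p ≥ 16`. If `16 ≤ i < 112`: a prime `p` with `mz z p = i` satisfies
`i ≤ 16 log p / log z < i + 1` (`Nat.floor_le`, `Nat.lt_floor_add_one`), so `a ≤ p ≤ b` with
`a = z ^ (i / 16) ≥ z ≥ 2`, `b = z ^ ((i + 1) / 16)` (real powers, or `exp (i / 16 * log z)`);
`log b / log a = (i + 1) / i`. So the sum is at most
`log ((i + 1) / i) + C / log a ≤ (2 i + 1) / (2 i (i + 1)) + C / log z`, and
`(2 i + 1) / (2 i (i + 1)) ≥ 1 / (i + 1) ≥ 1 / 112`, so `C / log z ≤ 0.01 * (...)`. -/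
def S_cell : Prop := ∃ J0 : ℕ, ∀ J : ℕ, J0 ≤ J → ∀ N i : ℕ, i < 112 →
  ∑ p ∈ (Sp (zJ J) N).filter (fun p => mz (zJ J) p = i), 1 / (p : ℝ) ≤ aR i

/-- **Piece sh** (60 lines, uses `I_pnt`): primes in an interval.

Proof. If `S` is empty the right side is `≥ 0`. Otherwise let `N = ⌊b⌋₊`, `M = ⌈a⌉₊ - 1`, so
`1 ≤ M`, `M < a ≤ M + 1`, `a ≤ N ≤ b` (an element of `S` is `≤ N` and `≥ a`), `S ⊆ Ioc M N`.
`log p = Λ p` for primes, `Λ ≥ 0`, so the sum is at most `ψ N - ψ M` where `ψ n = ∑_{m ≤ n} Λ m`.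
By `I_pnt` with `A = B` (constant `C1`, replace it by `max C1 0`):
`ψ N ≤ N + C1 N / (log N) ^ B ≤ N + C1 b / (log a) ^ B` and, if `M ≥ 2`,
`ψ M ≥ M - C1 M / (log M) ^ B ≥ a - 1 - 2 ^ B C1 b / (log a) ^ B`, since `M ^ 2 ≥ M + 1 ≥ a`, so
`log M ≥ (log a) / 2`; if `M = 1`: `ψ M ≥ 0 ≥ a - 2`. And `2 ≤ 2 * B! * b / (log a) ^ B` because
`(log a) ^ B ≤ (log b) ^ B ≤ B! * b` (`Real.pow_div_factorial_le_exp`). So
`C = C1 (1 + 2 ^ B) + 2 * B!` works. -/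
def S_sh : Prop := ∀ B : ℕ, ∃ C : ℝ, 0 ≤ C ∧ ∀ (S : Finset ℕ) (a b : ℝ), 2 ≤ a → a ≤ b →
  (∀ p ∈ S, p.Prime ∧ a ≤ p ∧ (p : ℝ) ≤ b) →
  ∑ p ∈ S, Real.log p ≤ b - a + C * b / Real.log a ^ B

/-- **Piece win** (120 lines, uses `S_sh`): primes in a long window.

Proof. `L = log J`, `lam = L ^ E`, `K = 100`, `h = 1 / (K lam)`, `C` from `S_sh` with `B = E + 1`.
Take `J` so large that `lam ≥ 2000` and `log y ≥ L / 4 ≥ 100`; so `h ≤ 10 ^ (-5)`,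
`exp (1/lam) ≤ 1.001`. A prime `p ∈ S` with `tri (lam log (p/y)) ≠ 0` has
`|log (p/y)| < 1 / lam = K h`. Put `i = ⌊log (p/y) / h⌋ + K ∈ {0, ..., 2 K - 1}` (a natural number) and
`t_i = y exp ((i - K) h)`: then `t_i ≤ p ≤ t_{i+1}`, and
`tri (lam log (p/y)) = 1 - lam |log (p/y)| ≤ c_i` where `c_i = 1 - (i - K)/K` for `i ≥ K`
and `c_i = 1 - (K - 1 - i)/K` for `i < K`; `∑_{i < 2K} c_i = K + 1 = 101`. The number of primes
`p ∈ S` in `[t_i, t_{i+1}]` is, by `S_sh`, at most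
`(∑ log p) / log t_i ≤ (t_{i+1} - t_i + C t_{i+1} / (log t_i) ^ (E + 1)) / log t_i`.
Here `t_{i+1} ≤ y exp (1/lam) ≤ 1.001 y`, `t_{i+1} - t_i = t_i (exp h - 1) ≤ 1.001 y * 1.001 h`
(`exp h - 1 ≤ h + h ^ 2`), `log t_i ≥ log y - 1/lam ≥ 0.999 log y ≥ (log y) / 2`. So each number is at
most `(1.001 / 0.999) (y / log y) (1.001 h + C / (log y / 2) ^ (E + 1))`. Multiply by `c_i`, sum over
`i` and multiply by `lam`; `lam h = 1/100` and
`lam / (log y / 2) ^ (E + 1) ≤ (4 log y) ^ E / (log y / 2) ^ (E + 1) = 2 * 8 ^ E / log y`, so the result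
is at most `(101 * 1.001 / 0.999) (y / log y) (1.001 / 100 + 2 * 8 ^ E * C / log y)`; take `J` also so
large that the last term is `≤ 10 ^ (-5)` (`log y ≥ L / 4`): total `≤ 101.21 * 0.01002 ≤ 1.02`. -/
def S_win : Prop := ∀ E : ℕ, 1 ≤ E → ∃ J0 : ℕ, ∀ J : ℕ, J0 ≤ J → ∀ y : ℝ,
  (J : ℝ) ^ (1 / 4 : ℝ) ≤ y → ∀ S : Finset ℕ, (∀ p ∈ S, p.Prime) →
  Real.log J ^ E * ∑ p ∈ S, tri (Real.log J ^ E * Real.log ((p : ℝ) / y)) ≤ 1.02 * y / Real.log y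

/-- **Piece ptw** (100 lines, uses `S_win`): the innermost prime.

Proof. `z = zJ J`, `lam = (log J) ^ E ≥ 2`, `x = (j + 1/2) ^ 3`, `P = ∏ q i > 0`, `m_i = mz z (q i)`,
`M = ∑ m_i`, `y = x / P`. `wL lam j (p * P) = tri (lam * log (p / y))`
(`(p * P : ℕ) / x = p / y`). From `mz`: `m_i log z / 16 ≤ log (q i) < (m_i + 1) log z / 16`, so
`M log z / 16 ≤ log P ≤ (M + r) log z / 16`. The right side is `≥ 0`.
(a) `P ≥ z ^ 7`: every `p ∈ Sp z N` has `p P ≥ z ^ 8 = 27 J ^ 3 ≥ 1.7 x ≥ x exp (1/lam)`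
(`x ≤ 15.625 J ^ 3`, `exp (1/2) ≤ 1.65`), so `lam log (p/y) ≥ 1`, `tri = 0`, left side `0`.
(b) `P < z ^ 7`: then `M / 16 < 7`, `M < 112`. If `y < z exp (-1/lam)` then again
`p / y ≥ z / y > exp (1/lam)`, left side `0`. Otherwise `y ≥ z exp (-1/lam) ≥ z / 2 ≥ J ^ (1/4)`
(`z = (3J) ^ (3/8)`) and `S_win` gives left side `≤ 1.02 y / log y`. Now
`log y ≥ log z - 1/lam ≥ 0.995 log z` and
`log y = log x - log P ≥ 3 log J - (M + r) log z / 16 ≥ (8 - 0.005 - (M + r)/16) log z`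
(`3 log J = 8 log z - 3 log 3`, `log z ≥ 1000`), so
`log y ≥ log z * (max 16 (128 - M - r) / 16 - 0.005) ≥ 0.995 * log z * max 16 (128 - M - r) / 16`
(as the maximum is `≥ 16`; the subtraction of natural numbers is no problem: if it is `0` the maximum
is `16`). `1.02 / 0.995 ≤ 1.03`. -/
def S_ptw : Prop := ∀ E : ℕ, 1 ≤ E → ∃ J0 : ℕ, ∀ J j : ℕ, J0 ≤ J → j ∈ Ioc J (2 * J) →
  ∀ (N r : ℕ) (q : Fin r → ℕ), (∀ i, q i ∈ Sp (zJ J) N) →
  Real.log J ^ E * ∑ p ∈ Sp (zJ J) N, wL (Real.log J ^ E) j (p * ∏ i, q i) ≤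
    1.03 * ((j : ℝ) + 1 / 2) ^ 3 / Real.log (zJ J) *
      ((∏ i, 1 / (q i : ℝ)) * Ph r (∑ i, mz (zJ J) (q i)))

/-! ### Numerics -/

/-- **Piece num** (80 lines): the kernel computation. The left side is `0.3780...`.

Proof. Put `aN i = if 16 ≤ i then 505000 * (2 * i + 1) / (i * (i + 1)) + 1 else 0` (natural
division; `10 ^ 6 * aR i ≤ aN i` since `10 ^ 6 * 1.01 * (2 i + 1) / (2 i (i + 1)) =
505000 (2 i + 1) / (i (i + 1))`) and `pN r M = 16000000 / max 16 (128 - M - r) + 1` for `M < 112`.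
Represent functions on `{0, ..., 111}` (zero beyond) by lists of natural numbers: `dot [a0, a1, ..]
[b0, b1, ..] = ∑ a_i b_i` (recursive, stops with the shorter list), `UL a [] = []`,
`UL a (x :: l) = dot a (x :: l) :: UL a l`. Then `(UL a l).getD s 0 = ∑ i, a.getD i 0 * l.getD (s + i) 0`
by induction, so if `10 ^ (6 k) Φ ≤ l` pointwise then `10 ^ (6 (k + 1)) Ust aR Φ ≤ UL aN l`
pointwise (monotonicity of `Ust` for nonnegative functions). `decide +kernel` for the final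
inequality between natural numbers (`r = 3, 4, 5, 6`; numbers of at most 45 digits, `4 * 5 * 112 ^ 2 / 2`
products). -/
def S_num : Prop :=
  ∑ r ∈ Icc 3 6, 8 / ((r + 1).factorial : ℝ) * ((Ust aR)^[r] (Ph r)) 0 ≤ 0.379

/-! ### Assembly -/

/-- **Piece lw** (60 lines, uses `S_tup1, S_tup2, S_tup3, S_cell, S_ptw, S_num`): long windows.

Proof. `N = 27 J ^ 3`, `z = zJ J`, `lam = (log J) ^ E`, `x = (j + 1/2) ^ 3`. `RR z n = ∑_{k = 4}^7 Rk z k n`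
and `wL ≥ 0`. For `k = r + 1`, `r = 3, ..., 6`: by `S_tup1` and `S_tup2`
`∑_n Rk z k n * wL lam j n ≤ (1/k!) TS S r (fun P => ∑ p ∈ S, wL lam j (p * P))`, `S = Sp z N`. By
`S_ptw`, times `lam`, this is `≤ (1/k!) * 1.03 x / log z * ∑_q (∏ 1/q i) * Ph r (∑ mz z (q i))`, and
by `S_tup3` (with `w p = 1 / p`, `m = mz z`, `a = aR`, `Φ = Ph r`, `S_cell`)
`≤ (1/k!) * 1.03 x / log z * ((Ust aR)^[r] (Ph r)) 0`. The sum over `r` is, by `S_num`,
`≤ 1.03 x / (8 log z) * 0.379`, and `8 log z = 3 log (3 J) ≥ 3 log J`;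
`1.03 * 0.379 ≤ 0.392`. -/
def S_lw : Prop := ∀ E : ℕ, 1 ≤ E → ∃ J0 : ℕ, ∀ J j : ℕ, J0 ≤ J → j ∈ Ioc J (2 * J) →
  Real.log J ^ E * ∑ n ∈ Icc 1 (27 * J ^ 3), RR (zJ J) n * wL (Real.log J ^ E) j n ≤
    0.392 * (((j : ℝ) + 1 / 2) ^ 3 / (3 * Real.log J))

/-- **Piece fin** (70 lines, uses `I_cmp, S_lw`): the conclusion.

Proof. Given `A`, take `E`, `C` from `I_cmp (A + 2)` and `J0 ≥ 3` from `S_lw E`. Let `J ≥ J0`,
`L = log J > 0`, `a_j = ∑ RR wJ`, `b_j = L ^ E ∑ RR wL`. If `j` is bad, that is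
`0.40 * (x / (2 J)) / (3 L) < a_j`, then `2 J a_j > 0.40 x / (3 L)` and `b_j ≤ 0.392 x / (3 L)`, so
`2 J a_j - b_j > 0.008 x / (3 L) ≥ 0.002 J ^ 3 / L` (`x ≥ J ^ 3`), so the square is at least
`4 * 10 ^ (-6) J ^ 6 / L ^ 2`. So `#bad * 4 * 10 ^ (-6) J ^ 6 / L ^ 2 ≤ C J ^ 7 / L ^ (A + 2)`,
`#bad ≤ 250000 C J / L ^ A`. For `2 ≤ J < J0`: `#bad ≤ J ≤ (log J0) ^ A * J / L ^ A`. -/
def S_fin : Prop := I_cmp → S_lw → I_M2

end Pool.Agent.CH.M2
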