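import Pool.Agent.Lib.MP_d610d0_nt.CH.M2.Stm
import Pool.Agent.Lib.MP_d610d0_nt.Mert2

set_option autoImplicit false

/-!
Piece mer: upper bound in Mertens' theorem.
-/

namespace Pool.Agent.CH.M2

open Finset
open Pool.Agent.Lib.MP_d610d0_nt (Pm mem_Pm Pab mem_Pab sum_Pab_succ sum_Pab_self Asum Asum_lower
  Asum_upper)

private theorem mer_term (p : ℕ) (hp : p.Prime) : 0 ≤ Real.log p / ((p : ℝ) - 1) := by
  have h1 : (2 : ℝ) ≤ p := by exact_mod_cast hp.two_le
  have h2 : 0 ≤ Real.log p := Real.log_natCast_nonneg p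
  have h3 : 0 < (p : ℝ) - 1 := by linarith
  positivity

private theorem mer_mono {m n : ℕ} (h : m ≤ n) : Asum m ≤ Asum n := by
  unfold Asum
  apply Finset.sum_le_sum_of_subset_of_nonneg
  · intro p hp
    rw [mem_Pm] at hp ⊢
    exact ⟨hp.1.trans h, hp.2⟩
  · intro p hp _
    exact mer_term p (mem_Pm.mp hp).2

private theorem mer_upper (n : ℕ) (_hn : 1 ≤ n) : Asum n ≤ Real.log n + 9 := by
  rcases le_or_gt 4000 n with h | h
  · have := Asum_upper h
    linarith
  · have h1 := mer_mono h.le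
    have h2 := Asum_upper (le_refl 4000)
    have h3 : 0 ≤ Real.log n := Real.log_natCast_nonneg n
    have h4 : Real.log ((4000 : ℕ) : ℝ) ≤ 12 * Real.log 2 := by
      have : (12 : ℝ) * Real.log 2 = Real.log (2 ^ 12) := by
        rw [Real.log_pow]; norm_num
      rw [this]
      apply Real.log_le_log
      · norm_num
      · norm_num
    have h5 := Real.log_two_lt_d9
    push_cast at h2 h4
    linarith

private theorem mer_E (a0 n : ℕ) (ha : 1 ≤ a0) (h : a0 ≤ n) :
    ∑ p ∈ Pab a0 n, Real.log p / (p : ℝ) ≤ Real.log n - Real.log ((a0 : ℝ) + 1) + 10 := by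
  have h1 : ∑ p ∈ Pab a0 n, Real.log p / (p : ℝ) ≤ ∑ p ∈ Pab a0 n, Real.log p / ((p : ℝ) - 1) := by
    apply Finset.sum_le_sum
    intro p hp
    have hp' := (mem_Pab.mp hp).2.2
    have h2 : (2 : ℝ) ≤ p := by exact_mod_cast hp'.two_le
    apply div_le_div_of_nonneg_left (Real.log_natCast_nonneg p) (by linarith) (by linarith)
  have h2 : ∑ p ∈ Pab a0 n, Real.log p / ((p : ℝ) - 1) + Asum a0 = Asum n := by
    unfold Asum
    rw [← Finset.sum_filter_add_sum_filter_not (Pm n) (fun p => a0 < p)]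
    congr 1
    apply Finset.sum_congr
    · ext p
      rw [Finset.mem_filter, mem_Pm, mem_Pm]
      constructor
      · rintro ⟨h3, h4⟩
        exact ⟨⟨h3.trans h, h4⟩, by omega⟩
      · rintro ⟨⟨h3, h4⟩, h5⟩
        exact ⟨by omega, h4⟩
    · intro _ _; rfl
  have h3 := mer_upper n (ha.trans h)
  have h4 := Asum_lower a0
  linarith

private theorem mer_claim (a0 : ℕ) (ha : 1 ≤ a0) (n : ℕ) (hn : a0 + 1 ≤ n) :
    ∑ p ∈ Pab a0 n, 1 / (p : ℝ) - (∑ p ∈ Pab a0 n, Real.log p / (p : ℝ)) / Real.log n ≤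
      Real.log (Real.log n / Real.log ((a0 : ℝ) + 1)) +
      (10 - Real.log ((a0 : ℝ) + 1)) * (1 / Real.log ((a0 : ℝ) + 1) - 1 / Real.log n) := by
  have ha' : (1 : ℝ) ≤ a0 := by exact_mod_cast ha
  have hL0 : 0 < Real.log ((a0 : ℝ) + 1) := Real.log_pos (by linarith)
  induction n, hn using Nat.le_induction with
  | base =>
    rw [sum_Pab_succ, sum_Pab_self, sum_Pab_succ, sum_Pab_self]
    push_cast
    rw [div_self hL0.ne', Real.log_one]
    split_ifs with h
    · have h1 : (0 : ℝ) < (a0 : ℝ) + 1 := by linarith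
      apply le_of_eq
      field_simp
      ring
    · simp
  | succ n hn ih =>
    have hn' : (a0 : ℝ) + 1 ≤ n := by exact_mod_cast hn
    have hLn : 0 < Real.log n := Real.log_pos (by linarith)
    have hLn1 : 0 < Real.log ((n + 1 : ℕ) : ℝ) := Real.log_pos (by push_cast; linarith)
    have hmono : Real.log n ≤ Real.log ((n + 1 : ℕ) : ℝ) := by
      apply Real.log_le_log (by linarith)
      push_cast; linarith
    have hE := mer_E a0 n ha (by omega)
    have e1 : ∑ p ∈ Pab a0 (n + 1), 1 / (p : ℝ) -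
        (∑ p ∈ Pab a0 (n + 1), Real.log p / (p : ℝ)) / Real.log ((n + 1 : ℕ) : ℝ) =
        ∑ p ∈ Pab a0 n, 1 / (p : ℝ) -
        (∑ p ∈ Pab a0 n, Real.log p / (p : ℝ)) / Real.log ((n + 1 : ℕ) : ℝ) := by
      rw [sum_Pab_succ, sum_Pab_succ]
      split_ifs with h
      · have h1 : (((n + 1 : ℕ)) : ℝ) ≠ 0 := by positivity
        field_simp
        ring
      · ring
    rw [e1]
    set S := ∑ p ∈ Pab a0 n, 1 / (p : ℝ) with hS
    set E := ∑ p ∈ Pab a0 n, Real.log p / (p : ℝ) with hEdef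
    set L0 := Real.log ((a0 : ℝ) + 1)
    set L := Real.log n
    set L1 := Real.log ((n + 1 : ℕ) : ℝ)
    have hd : 0 ≤ 1 / L - 1 / L1 := by
      have := one_div_le_one_div_of_le hLn hmono
      linarith
    have h1 : E * (1 / L - 1 / L1) ≤ (L - L0 + 10) * (1 / L - 1 / L1) :=
      mul_le_mul_of_nonneg_right hE hd
    have h2 : L * (1 / L - 1 / L1) ≤ Real.log (L1 / L) := by
      have h3 := Real.one_sub_inv_le_log_of_pos (div_pos hLn1 hLn)
      rw [inv_div] at h3
      have h4 : L * (1 / L - 1 / L1) = 1 - L / L1 := by field_simp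
      rw [h4]; exact h3
    have h3 : Real.log (L / L0) + Real.log (L1 / L) = Real.log (L1 / L0) := by
      rw [Real.log_div hLn.ne' hL0.ne', Real.log_div hLn1.ne' hLn.ne',
        Real.log_div hLn1.ne' hL0.ne']
      ring
    have h4 : S - E / L1 = S - E / L + E * (1 / L - 1 / L1) := by ring
    rw [h4, ← h3]
    nlinarith

/-- Piece mer -/
theorem p_mer : S_mer := by
  refine ⟨10, by norm_num, ?_⟩
  intro S a b ha hab hS
  have hla : 0 < Real.log a := Real.log_pos (by linarith)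
  have hlb : Real.log a ≤ Real.log b := Real.log_le_log (by linarith) hab
  have hratio : 1 ≤ Real.log b / Real.log a := by rwa [one_le_div hla]
  rcases Nat.lt_or_ge ⌊b⌋₊ ⌈a⌉₊ with h | h
  · have hemp : S = ∅ := by
      apply Finset.eq_empty_of_forall_notMem
      intro p hp
      obtain ⟨-, h1, h2⟩ := hS p hp
      have h3 : ⌈a⌉₊ ≤ p := Nat.ceil_le.mpr h1
      have h4 : p ≤ ⌊b⌋₊ := Nat.le_floor h2
      omega
    rw [hemp, Finset.sum_empty]
    have h1 : 0 ≤ Real.log (Real.log b / Real.log a) := Real.log_nonneg hratio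
    positivity
  · have hc2 : 2 ≤ ⌈a⌉₊ := by
      have h1 : (2 : ℝ) ≤ ⌈a⌉₊ := ha.trans (Nat.le_ceil a)
      exact_mod_cast h1
    obtain ⟨a0, ha0⟩ : ∃ a0, ⌈a⌉₊ = a0 + 1 := ⟨⌈a⌉₊ - 1, by omega⟩
    set n := ⌊b⌋₊ with hn
    have ha01 : 1 ≤ a0 := by omega
    have hn' : a0 + 1 ≤ n := by omega
    have hceil : a ≤ (a0 : ℝ) + 1 := by
      have h1 := Nat.le_ceil a
      rw [ha0] at h1
      push_cast at h1
      exact h1
    have h1 : ∑ p ∈ S, 1 / (p : ℝ) ≤ ∑ p ∈ Pab a0 n, 1 / (p : ℝ) := by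
      apply Finset.sum_le_sum_of_subset_of_nonneg
      · intro p hp
        obtain ⟨h1, h2, h3⟩ := hS p hp
        rw [mem_Pab]
        have h4 : ⌈a⌉₊ ≤ p := Nat.ceil_le.mpr h2
        exact ⟨by omega, Nat.le_floor h3, h1⟩
      · intro p _ _
        positivity
    have h2 := mer_claim a0 ha01 n hn'
    have h3 := mer_E a0 n ha01 (by omega)
    have ha' : (1 : ℝ) ≤ a0 := by exact_mod_cast ha01
    have hn'' : (a0 : ℝ) + 1 ≤ n := by exact_mod_cast hn'
    have hL0 : 0 < Real.log ((a0 : ℝ) + 1) := Real.log_pos (by linarith)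
    have hL : 0 < Real.log n := Real.log_pos (by linarith)
    have h4 : (∑ p ∈ Pab a0 n, Real.log p / (p : ℝ)) / Real.log n ≤
        (Real.log n - Real.log ((a0 : ℝ) + 1) + 10) / Real.log n :=
      div_le_div_of_nonneg_right h3 hL.le
    have hla0 : Real.log a ≤ Real.log ((a0 : ℝ) + 1) := Real.log_le_log (by linarith) hceil
    have hnb : (n : ℝ) ≤ b := Nat.floor_le (by linarith)
    have hlnb : Real.log n ≤ Real.log b := Real.log_le_log (by linarith) hnb
    have h5 : Real.log (Real.log n / Real.log ((a0 : ℝ) + 1)) ≤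
        Real.log (Real.log b / Real.log a) := by
      apply Real.log_le_log (by positivity)
      exact div_le_div₀ (by linarith) hlnb hla hla0
    have h6 : 10 / Real.log ((a0 : ℝ) + 1) ≤ 10 / Real.log a :=
      div_le_div_of_nonneg_left (by norm_num) hla hla0
    have h7 : (Real.log n - Real.log ((a0 : ℝ) + 1) + 10) / Real.log n +
        (10 - Real.log ((a0 : ℝ) + 1)) * (1 / Real.log ((a0 : ℝ) + 1) - 1 / Real.log n) =
        10 / Real.log ((a0 : ℝ) + 1) := by
      field_simp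
      ring
    linarith

end Pool.Agent.CH.M2
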