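import Pool.Agent.Lib.MP_d610d0_nt.CH.M2.Stm

/-!
# MP_d610d0, section M2, piece cell
-/

set_option autoImplicit false

namespace Pool.Agent.CH.M2

open Finset

private theorem cell_log (J : ℕ) : Real.log (zJ J) = 3 / 8 * Real.log (3 * (J : ℝ)) := by
  rcases Nat.eq_zero_or_pos J with rfl | hJ
  · unfold zJ
    rw [Nat.cast_zero, mul_zero, Real.zero_rpow (by norm_num)]
    simp
  · unfold zJ
    have : (0 : ℝ) < 3 * (J : ℝ) := by positivity
    rw [Real.log_rpow this]

private theorem cell_two : (2 : ℝ) ≤ Real.exp 1 := by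
  have := Real.add_one_le_exp (1 : ℝ)
  linarith

theorem p_cell (h1 : S_log2) (h2 : S_mer) : S_cell := by
  obtain ⟨C, hC, hmer⟩ := h2
  refine ⟨⌈Real.exp (8 / 3 * (1 + 11200 * C))⌉₊, ?_⟩
  intro J hJ N i hi
  have hJr : Real.exp (8 / 3 * (1 + 11200 * C)) ≤ (J : ℝ) :=
    (Nat.le_ceil _).trans (by exact_mod_cast hJ)
  have hJpos : (0 : ℝ) < J := (Real.exp_pos _).trans_le hJr
  have hlog : 8 / 3 * (1 + 11200 * C) ≤ Real.log (3 * (J : ℝ)) := by
    rw [Real.le_log_iff_exp_le (by positivity)]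
    linarith
  have hL : 1 + 11200 * C ≤ Real.log (zJ J) := by
    rw [cell_log]
    linarith
  have hzpos : 0 < zJ J := by
    unfold zJ
    positivity
  set L : ℝ := Real.log (zJ J) with hLdef
  have hL1 : 1 ≤ L := by linarith
  have hL0 : 0 < L := by linarith
  have hmem : ∀ p ∈ (Sp (zJ J) N).filter (fun p => mz (zJ J) p = i),
      p.Prime ∧ L ≤ Real.log p ∧ (i : ℝ) ≤ 16 * Real.log p / L ∧
        16 * Real.log p / L < (i : ℝ) + 1 ∧ (0 : ℝ) < p := by
    intro p hp
    rw [Finset.mem_filter] at hp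
    obtain ⟨hp1, hp2⟩ := hp
    unfold Sp at hp1
    rw [Finset.mem_filter] at hp1
    obtain ⟨_, hpp, hzp⟩ := hp1
    have hp0 : (0 : ℝ) < p := hzpos.trans_le hzp
    have hlp : L ≤ Real.log p := Real.log_le_log hzpos hzp
    have hnn : 0 ≤ 16 * Real.log p / L := by positivity
    unfold mz at hp2
    refine ⟨hpp, hlp, ?_, ?_, hp0⟩
    · rw [← hp2]
      exact Nat.floor_le hnn
    · rw [← hp2]
      exact Nat.lt_floor_add_one _
  rcases Nat.lt_or_ge i 16 with hi16 | hi16
  · have hemp : (Sp (zJ J) N).filter (fun p => mz (zJ J) p = i) = ∅ := by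
      rw [Finset.eq_empty_iff_forall_notMem]
      intro p hp
      obtain ⟨_, hlp, _, h4, _⟩ := hmem p hp
      have h5 : (16 : ℝ) ≤ 16 * Real.log p / L := by
        rw [le_div_iff₀ hL0]
        linarith
      have h6 : ((i : ℝ) + 1) ≤ 16 := by exact_mod_cast hi16
      linarith
    rw [hemp, Finset.sum_empty]
    unfold aR
    rw [if_neg (by omega)]
  · have hi0 : (16 : ℝ) ≤ i := by exact_mod_cast hi16
    have hipos : (0 : ℝ) < i := by linarith
    have hi112 : (i : ℝ) + 1 ≤ 112 := by exact_mod_cast hi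
    have hkey := hmer ((Sp (zJ J) N).filter (fun p => mz (zJ J) p = i))
      (Real.exp ((i : ℝ) / 16 * L)) (Real.exp (((i : ℝ) + 1) / 16 * L)) ?_ ?_ ?_
    · refine hkey.trans ?_
      rw [Real.log_exp, Real.log_exp]
      have e1 : ((i : ℝ) + 1) / 16 * L / ((i : ℝ) / 16 * L) = ((i : ℝ) + 1) / i := by
        field_simp
      rw [e1]
      have e2 := h1 i (by omega)
      have e3 : C / ((i : ℝ) / 16 * L) ≤ 0.01 / 112 := by
        rw [div_le_div_iff₀ (by positivity) (by norm_num)]
        have : L ≤ (i : ℝ) / 16 * L := by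
          have : (1 : ℝ) ≤ (i : ℝ) / 16 := by linarith
          nlinarith
        nlinarith
      have e4 : (1 : ℝ) / 112 ≤ (2 * i + 1) / (2 * i * (i + 1)) := by
        rw [div_le_div_iff₀ (by norm_num) (by positivity)]
        nlinarith
      unfold aR
      rw [if_pos hi16]
      have e5 : (1.01 : ℝ) * (2 * i + 1) / (2 * i * (i + 1)) =
          (2 * i + 1) / (2 * i * (i + 1)) + 0.01 * ((2 * i + 1) / (2 * i * (i + 1))) := by ring
      rw [e5]
      linarith
    · refine cell_two.trans (Real.exp_le_exp.2 ?_)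
      have : (1 : ℝ) ≤ (i : ℝ) / 16 := by linarith
      nlinarith
    · refine Real.exp_le_exp.2 ?_
      nlinarith
    · intro p hp
      obtain ⟨hpp, _, h3, h4, h5⟩ := hmem p hp
      rw [le_div_iff₀ hL0] at h3
      rw [div_lt_iff₀ hL0] at h4
      refine ⟨hpp, ?_, ?_⟩
      · rw [← Real.le_log_iff_exp_le h5]
        linarith
      · rw [← Real.log_le_iff_le_exp h5]
        linarith

end Pool.Agent.CH.M2
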