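import Pool.Agent.Lib.MP_d610d0_nt.CH.M2.Stm

/-!
[CM2 fin]: the conclusion of section M2.
-/

set_option autoImplicit false

namespace Pool.Agent.CH.M2

open Finset
open Pool.Agent.MP89da58 (tri)

/-- **Piece fin** -/
theorem p_fin : S_fin := by
  intro hcmp hlw A
  obtain ⟨E, C, hE, hC⟩ := hcmp (A + 2)
  obtain ⟨J0, hJ0⟩ := hlw E hE
  set J1 : ℕ := max J0 3 with hJ1
  have h3 : (3 : ℝ) ≤ (J1 : ℝ) := by
    have : 3 ≤ J1 := le_max_right _ _
    exact_mod_cast this
  have hlogJ1 : 0 < Real.log (J1 : ℝ) := Real.log_pos (by linarith)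
  refine ⟨250000 * |C| + Real.log (J1 : ℝ) ^ A, fun J hJ => ?_⟩
  have hJr : (2 : ℝ) ≤ (J : ℝ) := by exact_mod_cast hJ
  have hJpos : (0 : ℝ) < (J : ℝ) := by linarith
  have hL : 0 < Real.log (J : ℝ) := Real.log_pos (by linarith)
  have hLA : 0 < Real.log (J : ℝ) ^ A := pow_pos hL A
  set S := (Ioc J (2 * J)).filter (fun j : ℕ =>
    0.40 * (((j : ℝ) + 1 / 2) ^ 3 / (2 * J)) / (3 * Real.log J)
    < ∑ n ∈ Icc 1 (27 * J ^ 3), RR (zJ J) n * wJ J j n) with hS
  rw [mul_div_assoc, add_mul]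
  by_cases hlt : J1 ≤ J
  · have hJ0J : J0 ≤ J := le_trans (le_max_left _ _) hlt
    have hmain : (S.card : ℝ) * (4 / 1000000 * (J : ℝ) ^ 6 / Real.log J ^ 2) ≤
        C * (J : ℝ) ^ 7 / Real.log J ^ (A + 2) := by
      refine le_trans ?_ (hC J hJ)
      refine le_trans ?_ (Finset.sum_le_sum_of_subset_of_nonneg (Finset.filter_subset _ _)
        (s := S) (fun j _ _ => sq_nonneg _))
      rw [← nsmul_eq_mul]
      refine Finset.card_nsmul_le_sum _ _ _ fun j hj => ?_
      obtain ⟨hj1, hj2⟩ := Finset.mem_filter.1 hj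
      have hb := hJ0 J j hJ0J hj1
      have hjJ : (J : ℝ) ≤ (j : ℝ) := by
        have := (Finset.mem_Ioc.1 hj1).1
        exact_mod_cast this.le
      have hx : (J : ℝ) ^ 3 ≤ ((j : ℝ) + 1 / 2) ^ 3 :=
        pow_le_pow_left₀ hJpos.le (by linarith) 3
      generalize (∑ n ∈ Icc 1 (27 * J ^ 3), RR (zJ J) n * wJ J j n) = a at hj2 ⊢
      generalize (Real.log (J : ℝ) ^ E * ∑ n ∈ Icc 1 (27 * J ^ 3),
        RR (zJ J) n * wL (Real.log J ^ E) j n) = b at hb ⊢
      generalize ((j : ℝ) + 1 / 2) ^ 3 = x at hj2 hb hx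
      generalize Real.log (J : ℝ) = L at hL hj2 hb ⊢
      have h1 : 0.40 * (x / (3 * L)) < 2 * J * a := by
        have h2 := mul_lt_mul_of_pos_left hj2 (show (0 : ℝ) < 2 * J by positivity)
        have h3 : 2 * (J : ℝ) * (0.40 * (x / (2 * J)) / (3 * L)) = 0.40 * (x / (3 * L)) := by
          field_simp
        rwa [h3] at h2
      have h2 : 0.002 * ((J : ℝ) ^ 3 / L) ≤ 2 * J * a - b := by
        have h3 : (J : ℝ) ^ 3 / L ≤ x / L := by gcongr
        have h4 : x / (3 * L) = x / L / 3 := by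
          field_simp
        rw [h4] at h1 hb
        have h5 : 0 < (J : ℝ) ^ 3 / L := by positivity
        linarith
      have h5 : 0 ≤ 0.002 * ((J : ℝ) ^ 3 / L) := by positivity
      have h6 := pow_le_pow_left₀ h5 h2 2
      refine le_trans (le_of_eq ?_) h6
      field_simp
      ring
    have hposq : 0 < 4 / 1000000 * (J : ℝ) ^ 6 / Real.log J ^ 2 := by positivity
    have h7 : (S.card : ℝ) ≤ 250000 * C * ((J : ℝ) / Real.log J ^ A) := by
      refine le_of_mul_le_mul_right (le_trans hmain (le_of_eq ?_)) hposq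
      rw [pow_add]
      field_simp
      ring
    have h8 : 250000 * C * ((J : ℝ) / Real.log J ^ A) ≤
        250000 * |C| * ((J : ℝ) / Real.log J ^ A) := by
      have h9 := le_abs_self C
      gcongr
    have h9 : 0 ≤ Real.log (J1 : ℝ) ^ A * ((J : ℝ) / Real.log J ^ A) := by positivity
    linarith
  · push Not at hlt
    have hcard : (S.card : ℝ) ≤ (J : ℝ) := by
      have h1 : S.card ≤ (Ioc J (2 * J)).card := Finset.card_filter_le _ _
      rw [Nat.card_Ioc] at h1
      have h2 : S.card ≤ J := by omega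
      exact_mod_cast h2
    have h1 : Real.log (J : ℝ) ≤ Real.log (J1 : ℝ) :=
      Real.log_le_log hJpos (by exact_mod_cast hlt.le)
    have h2 : Real.log (J : ℝ) ^ A ≤ Real.log (J1 : ℝ) ^ A := pow_le_pow_left₀ hL.le h1 A
    have h3 : (J : ℝ) ≤ Real.log (J1 : ℝ) ^ A * ((J : ℝ) / Real.log J ^ A) := by
      rw [mul_div_assoc', le_div_iff₀ hLA, mul_comm]
      gcongr
    have h4 : 0 ≤ 250000 * |C| * ((J : ℝ) / Real.log J ^ A) := by positivity
    linarith

end Pool.Agent.CH.M2
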