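import Pool.Agent.Lib.MP_d610d0_nt.CH.M2.Stm

set_option autoImplicit false

namespace Pool.Agent.CH.M2

theorem p_log2 : S_log2 := by
  intro i hi
  have hi0 : (0 : ℝ) < i := by exact_mod_cast hi
  have h1 : (1 : ℝ) ≤ ((i : ℝ) + 1) / i := by
    rw [le_div_iff₀ hi0]
    linarith
  have h2 : 0 ≤ Real.log (((i : ℝ) + 1) / i) := Real.log_nonneg h1
  have h3 := Real.self_le_sinh_iff.2 h2
  rw [Real.sinh_log (lt_of_lt_of_le one_pos h1)] at h3
  refine h3.trans (le_of_eq ?_)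
  field_simp
  ring

end Pool.Agent.CH.M2
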