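import Pool.Agent.Lib.MP_d610d0_nt.CH.M2.Stm

set_option autoImplicit false

namespace Pool.Agent.CH.M2

open Finset

private def num_dot : List ℕ → List ℕ → ℕ
  | a :: as, b :: bs => a * b + num_dot as bs
  | _, _ => 0

private def num_UL (a : List ℕ) : List ℕ → List ℕ
  | [] => []
  | x :: l => num_dot a (x :: l) :: num_UL a l

private lemma num_dot_nil (a : List ℕ) : num_dot a [] = 0 := by
  cases a <;> simp [num_dot]

private lemma num_dot_sum : ∀ (n : ℕ) (a l : List ℕ), a.length ≤ n →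
    num_dot a l = ∑ i ∈ range n, a.getD i 0 * l.getD i 0
  | n, [], l, _ => by simp [num_dot]
  | n, x :: a, [], _ => by simp [num_dot]
  | 0, x :: a, y :: l, h => by simp at h
  | n + 1, x :: a, y :: l, h => by
      rw [Finset.sum_range_succ', num_dot, num_dot_sum n a l (by simpa using h)]
      simp [add_comm]

private lemma num_UL_getD (a : List ℕ) : ∀ (l : List ℕ) (s : ℕ),
    (num_UL a l).getD s 0 = num_dot a (l.drop s)
  | [], s => by simp [num_UL, num_dot_nil]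
  | x :: l, 0 => by simp [num_UL]
  | x :: l, s + 1 => by
      have := num_UL_getD a l s
      simpa [num_UL] using this

private lemma num_UL_sum (a l : List ℕ) (ha : a.length = 112) (s : ℕ) :
    (num_UL a l).getD s 0 = ∑ i ∈ range 112, a.getD i 0 * l.getD (s + i) 0 := by
  rw [num_UL_getD, num_dot_sum 112 a _ ha.le]
  refine Finset.sum_congr rfl fun i _ => ?_
  congr 1
  simp [List.getD_eq_getElem?_getD, List.getElem?_drop]

private lemma num_step (a Φ : ℕ → ℝ) (al l : List ℕ) (c d : ℝ) (hd : 0 ≤ d) (hc : 0 ≤ c)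
    (hal : al.length = 112) (ha0 : ∀ i, 0 ≤ a i) (hΦ0 : ∀ s, 0 ≤ Φ s)
    (ha : ∀ i, i < 112 → d * a i ≤ (al.getD i 0 : ℝ)) (hΦ : ∀ s, c * Φ s ≤ (l.getD s 0 : ℝ)) :
    (∀ s, 0 ≤ Ust a Φ s) ∧ ∀ s, (d * c) * Ust a Φ s ≤ ((num_UL al l).getD s 0 : ℝ) := by
  refine ⟨fun s => Finset.sum_nonneg fun i _ => mul_nonneg (ha0 i) (hΦ0 _), fun s => ?_⟩
  rw [num_UL_sum al l hal, Ust, Finset.mul_sum]
  push_cast
  refine Finset.sum_le_sum fun i hi => ?_
  have h1 := ha i (Finset.mem_range.1 hi)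
  have h2 := hΦ (s + i)
  calc d * c * (a i * Φ (s + i)) = (d * a i) * (c * Φ (s + i)) := by ring
    _ ≤ _ := mul_le_mul h1 h2 (mul_nonneg hc (hΦ0 _)) (by positivity)

private lemma num_iter (a Φ : ℕ → ℝ) (al l : List ℕ) (c d : ℝ) (hd : 0 ≤ d) (hc : 0 ≤ c)
    (hal : al.length = 112) (ha0 : ∀ i, 0 ≤ a i) (hΦ0 : ∀ s, 0 ≤ Φ s)
    (ha : ∀ i, i < 112 → d * a i ≤ (al.getD i 0 : ℝ)) (hΦ : ∀ s, c * Φ s ≤ (l.getD s 0 : ℝ)) :
    ∀ r : ℕ, (∀ s, 0 ≤ ((Ust a)^[r] Φ) s) ∧
      ∀ s, (d ^ r * c) * ((Ust a)^[r] Φ) s ≤ (((num_UL al)^[r] l).getD s 0 : ℝ)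
  | 0 => by simpa using ⟨hΦ0, hΦ⟩
  | r + 1 => by
      obtain ⟨h0, h1⟩ := num_iter a Φ al l c d hd hc hal ha0 hΦ0 ha hΦ r
      have := num_step a ((Ust a)^[r] Φ) al ((num_UL al)^[r] l) (d ^ r * c) d hd
        (by positivity) hal ha0 h0 ha h1
      rw [Function.iterate_succ_apply', Function.iterate_succ_apply']
      refine ⟨this.1, fun s => ?_⟩
      have h2 := this.2 s
      have h3 : d ^ (r + 1) * c = d * (d ^ r * c) := by ring
      rw [h3]
      exact h2

private def num_aN : List ℕ :=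
  (List.range 112).map fun i => if 16 ≤ i then 505000 * (2 * i + 1) / (i * (i + 1)) + 1 else 0

private def num_pN (r : ℕ) : List ℕ :=
  (List.range 112).map fun M => 16000000 / max 16 (128 - M - r) + 1

private lemma num_map_getD (f : ℕ → ℕ) (n s : ℕ) :
    ((List.range n).map f).getD s 0 = if s < n then f s else 0 := by
  split_ifs with h
  · simp [List.getD_eq_getElem?_getD, h]
  · simp [List.getD_eq_getElem?_getD, h]

private lemma num_div (x y : ℕ) (hy : 0 < y) : (x : ℝ) / y ≤ ((x / y + 1 : ℕ) : ℝ) := by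
  have h1 : x < y * (x / y + 1) := by
    have := Nat.div_add_mod x y
    have h2 := Nat.mod_lt x hy
    calc x = y * (x / y) + x % y := this.symm
      _ < y * (x / y) + y := by omega
      _ = _ := by ring
  have hy' : (0 : ℝ) < y := by exact_mod_cast hy
  rw [div_le_iff₀ hy']
  have h3 : (x : ℝ) < (y : ℝ) * ((x / y + 1 : ℕ) : ℝ) := by exact_mod_cast h1
  linarith [h3, mul_comm (y : ℝ) ((x / y + 1 : ℕ) : ℝ)]

private lemma num_aR_nonneg (i : ℕ) : 0 ≤ aR i := by
  unfold aR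
  split_ifs with h
  · positivity
  · exact le_rfl

private lemma num_aR_le (i : ℕ) (hi : i < 112) :
    (10 ^ 6 : ℝ) * aR i ≤ (num_aN.getD i 0 : ℝ) := by
  unfold num_aN
  rw [num_map_getD, if_pos hi]
  unfold aR
  split_ifs with h
  · have hi0 : 0 < i := by omega
    have h1 := num_div (505000 * (2 * i + 1)) (i * (i + 1)) (by positivity)
    refine le_trans (le_of_eq ?_) h1
    have : (i : ℝ) ≠ 0 := by exact_mod_cast hi0.ne'
    push_cast
    field_simp
    ring
  · simp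

private lemma num_Ph_nonneg (r M : ℕ) : 0 ≤ Ph r M := by
  unfold Ph
  split_ifs with h
  · positivity
  · exact le_rfl

private lemma num_Ph_le (r M : ℕ) :
    (10 ^ 6 : ℝ) * Ph r M ≤ ((num_pN r).getD M 0 : ℝ) := by
  unfold num_pN
  rw [num_map_getD]
  unfold Ph
  split_ifs with h
  · have h1 := num_div 16000000 (max 16 (128 - M - r)) (by positivity)
    refine le_trans (le_of_eq ?_) h1
    push_cast
    ring
  · simp

private lemma num_dec :
    210 * 10 ^ 18 * ((num_UL num_aN)^[3] (num_pN 3)).getD 0 0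
      + 42 * 10 ^ 12 * ((num_UL num_aN)^[4] (num_pN 4)).getD 0 0
      + 7 * 10 ^ 6 * ((num_UL num_aN)^[5] (num_pN 5)).getD 0 0
      + ((num_UL num_aN)^[6] (num_pN 6)).getD 0 0 ≤ 23877 * 10 ^ 40 := by
  decide +kernel

theorem p_num : S_num := by
  unfold S_num
  have key := fun r : ℕ => (num_iter aR (Ph r) num_aN (num_pN r) (10 ^ 6) (10 ^ 6)
    (by positivity) (by positivity) (by simp [num_aN]) num_aR_nonneg (num_Ph_nonneg r)
    num_aR_le (num_Ph_le r) r).2 0
  have h3 := key 3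
  have h4 := key 4
  have h5 := key 5
  have h6 := key 6
  have hd : (210 * 10 ^ 18 * (((num_UL num_aN)^[3] (num_pN 3)).getD 0 0 : ℝ)
      + 42 * 10 ^ 12 * (((num_UL num_aN)^[4] (num_pN 4)).getD 0 0 : ℝ)
      + 7 * 10 ^ 6 * (((num_UL num_aN)^[5] (num_pN 5)).getD 0 0 : ℝ)
      + (((num_UL num_aN)^[6] (num_pN 6)).getD 0 0 : ℝ)) ≤ 23877 * 10 ^ 40 := by
    exact_mod_cast num_dec
  have e : Icc 3 6 = ({3, 4, 5, 6} : Finset ℕ) := by decide
  rw [e]
  rw [Finset.sum_insert (by decide), Finset.sum_insert (by decide), Finset.sum_insert (by decide),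
    Finset.sum_singleton]
  have f4 : ((3 + 1).factorial : ℝ) = 24 := by norm_num [Nat.factorial]
  have f5 : ((4 + 1).factorial : ℝ) = 120 := by norm_num [Nat.factorial]
  have f6 : ((5 + 1).factorial : ℝ) = 720 := by norm_num [Nat.factorial]
  have f7 : ((6 + 1).factorial : ℝ) = 5040 := by norm_num [Nat.factorial]
  rw [f4, f5, f6, f7]
  generalize (((num_UL num_aN)^[3] (num_pN 3)).getD 0 0 : ℕ) = n3 at *
  generalize (((num_UL num_aN)^[4] (num_pN 4)).getD 0 0 : ℕ) = n4 at *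
  generalize (((num_UL num_aN)^[5] (num_pN 5)).getD 0 0 : ℕ) = n5 at *
  generalize (((num_UL num_aN)^[6] (num_pN 6)).getD 0 0 : ℕ) = n6 at *
  generalize ((Ust aR)^[3] (Ph 3)) 0 = x3 at *
  generalize ((Ust aR)^[4] (Ph 4)) 0 = x4 at *
  generalize ((Ust aR)^[5] (Ph 5)) 0 = x5 at *
  generalize ((Ust aR)^[6] (Ph 6)) 0 = x6 at *
  norm_num at h3 h4 h5 h6 hd ⊢
  linarith

end Pool.Agent.CH.M2
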