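import Pool.Agent.Lib.MP_d610d0_nt.CH.M2.Stm

/-!
# MP_d610d0_nt, CH, section M2: primes in an interval
-/

set_option autoImplicit false

namespace Pool.Agent.CH.M2

open Finset

private theorem sh_pow {a b : ℝ} (B : ℕ) (ha : 2 ≤ a) (hab : a ≤ b) :
    1 ≤ (B.factorial : ℝ) * b / Real.log a ^ B := by
  have hla : 0 < Real.log a := Real.log_pos (by linarith)
  have hb0 : 0 < b := by linarith
  have hlab : Real.log a ≤ Real.log b := Real.log_le_log (by linarith) hab
  have h1 := Real.pow_div_factorial_le_exp (Real.log b) (by linarith) B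
  rw [Real.exp_log hb0, div_le_iff₀ (by positivity)] at h1
  rw [le_div_iff₀ (by positivity), one_mul]
  have h2 : Real.log a ^ B ≤ Real.log b ^ B := pow_le_pow_left₀ hla.le hlab B
  linarith [mul_comm b (B.factorial : ℝ)]

theorem p_sh (h : I_pnt) : S_sh := by
  intro B
  obtain ⟨C0, hC0⟩ := h B
  obtain ⟨C1, hC1, hC⟩ : ∃ C1 : ℝ, 0 ≤ C1 ∧ ∀ M : ℕ, 2 ≤ M →
      |∑ m ∈ Icc 1 M, ArithmeticFunction.vonMangoldt m - (M : ℝ)| ≤ C1 * (M / Real.log M ^ B) := by
    refine ⟨max C0 0, le_max_right _ _, fun M hM => ?_⟩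
    have h1 := hC0 M hM
    have hl : 0 < Real.log M := Real.log_pos (by exact_mod_cast (by omega : 1 < M))
    have h2 : (0 : ℝ) ≤ M / Real.log M ^ B := by positivity
    calc |∑ m ∈ Icc 1 M, ArithmeticFunction.vonMangoldt m - (M : ℝ)|
        ≤ C0 * M / Real.log M ^ B := h1
      _ = C0 * (M / Real.log M ^ B) := by ring
      _ ≤ max C0 0 * (M / Real.log M ^ B) := mul_le_mul_of_nonneg_right (le_max_left _ _) h2
  refine ⟨C1 * (1 + 2 ^ B) + 2 * B.factorial, by positivity, ?_⟩
  intro S a b ha hab hS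
  have hla : 0 < Real.log a := Real.log_pos (by linarith)
  have hb0 : 0 < b := by linarith
  rcases S.eq_empty_or_nonempty with rfl | ⟨q, hq⟩
  · rw [Finset.sum_empty]
    have : 0 ≤ (C1 * (1 + 2 ^ B) + 2 * B.factorial) * b / Real.log a ^ B := by positivity
    linarith
  · obtain ⟨-, hqa, hqb⟩ := hS q hq
    set N := ⌊b⌋₊ with hN
    have hNb : (N : ℝ) ≤ b := Nat.floor_le hb0.le
    have hqN : q ≤ N := Nat.le_floor hqb
    have hNa : a ≤ N := hqa.trans (by exact_mod_cast hqN)
    have hN2 : 2 ≤ N := by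
      have : (2 : ℝ) ≤ N := by linarith
      exact_mod_cast this
    have hca : 2 ≤ ⌈a⌉₊ := by
      have h1 : a ≤ (⌈a⌉₊ : ℝ) := Nat.le_ceil a
      have : (2 : ℝ) ≤ (⌈a⌉₊ : ℝ) := by linarith
      exact_mod_cast this
    obtain ⟨M, hM⟩ : ∃ M, ⌈a⌉₊ = M + 1 := ⟨⌈a⌉₊ - 1, by omega⟩
    have hM1 : 1 ≤ M := by omega
    have haM : a ≤ (M : ℝ) + 1 := by
      have h1 : a ≤ (⌈a⌉₊ : ℝ) := Nat.le_ceil a
      rw [hM] at h1
      exact_mod_cast h1
    have hMa : (M : ℝ) < a := Nat.lt_ceil.1 (by omega)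
    have hMN : M ≤ N := by
      have : (M : ℝ) ≤ N := by linarith
      exact_mod_cast this
    -- the comparison with `ψ`
    have hsub : S ⊆ Ioc M N := by
      intro p hp
      obtain ⟨-, hpa, hpb⟩ := hS p hp
      rw [mem_Ioc]
      refine ⟨?_, Nat.le_floor hpb⟩
      have : (M : ℝ) < p := lt_of_lt_of_le hMa hpa
      exact_mod_cast this
    have hpsi : ∑ p ∈ S, Real.log p ≤ ∑ m ∈ Icc 1 N, ArithmeticFunction.vonMangoldt m
        - ∑ m ∈ Icc 1 M, ArithmeticFunction.vonMangoldt m := by
      have e1 : ∑ p ∈ S, Real.log p = ∑ p ∈ S, ArithmeticFunction.vonMangoldt p :=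
        Finset.sum_congr rfl fun p hp =>
          (ArithmeticFunction.vonMangoldt_apply_prime (hS p hp).1).symm
      have e2 : ∑ p ∈ S, ArithmeticFunction.vonMangoldt p
          ≤ ∑ m ∈ Ioc M N, ArithmeticFunction.vonMangoldt m :=
        Finset.sum_le_sum_of_subset_of_nonneg hsub
          fun _ _ _ => ArithmeticFunction.vonMangoldt_nonneg
      have e3 : ∀ n : ℕ, Icc 1 n = Ioc 0 n := fun n => by
        ext x; simp only [mem_Icc, mem_Ioc]; omega
      have e4 := Finset.sum_Ioc_consecutive (fun m => ArithmeticFunction.vonMangoldt m)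
        (Nat.zero_le M) hMN
      rw [e3, e3, e1]
      linarith
    set X := b / Real.log a ^ B with hX
    have hX0 : 0 ≤ X := by positivity
    have hup : ∑ m ∈ Icc 1 N, ArithmeticFunction.vonMangoldt m ≤ b + C1 * X := by
      have h1 := (abs_le.1 (hC N hN2)).2
      have h2 : (N : ℝ) / Real.log N ^ B ≤ X := by
        apply div_le_div₀ hb0.le hNb (by positivity)
        exact pow_le_pow_left₀ hla.le (Real.log_le_log (by linarith) hNa) B
      have h3 := mul_le_mul_of_nonneg_left h2 hC1
      linarith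
    have hlo : a - 2 - C1 * 2 ^ B * X ≤ ∑ m ∈ Icc 1 M, ArithmeticFunction.vonMangoldt m := by
      rcases Nat.lt_or_ge M 2 with hM2 | hM2
      · have hM' : M = 1 := by omega
        have h1 : (0 : ℝ) ≤ ∑ m ∈ Icc 1 M, ArithmeticFunction.vonMangoldt m :=
          Finset.sum_nonneg fun _ _ => ArithmeticFunction.vonMangoldt_nonneg
        have h2 : a ≤ 2 := by rw [hM'] at haM; norm_num at haM; exact haM
        have h3 : 0 ≤ C1 * 2 ^ B * X := by positivity
        linarith
      · have h1 := (abs_le.1 (hC M hM2)).1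
        have hMr : (2 : ℝ) ≤ M := by exact_mod_cast hM2
        have hlM : Real.log a / 2 ≤ Real.log M := by
          have h2 : Real.log a ≤ Real.log ((M : ℝ) ^ 2) :=
            Real.log_le_log (by linarith) (by nlinarith)
          rw [Real.log_pow] at h2
          push_cast at h2
          linarith
        have h2 : (M : ℝ) / Real.log M ^ B ≤ 2 ^ B * X := by
          have h3 : (M : ℝ) / Real.log M ^ B ≤ b / (Real.log a / 2) ^ B := by
            apply div_le_div₀ hb0.le (by linarith) (by positivity)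
            exact pow_le_pow_left₀ (by positivity) hlM B
          have h4 : b / (Real.log a / 2) ^ B = 2 ^ B * X := by
            rw [hX, div_pow]
            field_simp
          linarith
        have h3 := mul_le_mul_of_nonneg_left h2 hC1
        nlinarith
    have hone := sh_pow B ha hab
    have hone' : 1 ≤ (B.factorial : ℝ) * X := by
      rw [hX, ← mul_div_assoc]; exact hone
    have e : (C1 * (1 + 2 ^ B) + 2 * B.factorial) * b / Real.log a ^ B
        = C1 * X + C1 * 2 ^ B * X + 2 * (B.factorial * X) := by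
      rw [hX]; ring
    rw [e]
    linarith

end Pool.Agent.CH.M2
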