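import Pool.Agent.Lib.MP_d610d0_nt.CH.M2.Stm

set_option autoImplicit false

namespace Pool.Agent.CH.M2

open Finset

theorem p_tup2 : S_tup2 := by
  intro S r h
  unfold TS
  rw [← Finset.sum_product_right' S (Fintype.piFinset (fun _ : Fin r => S))
    (fun p q => h (p * ∏ i, q i))]
  refine Finset.sum_nbij' (fun q => (q 0, fun i => q i.succ)) (fun x => Fin.cons x.1 x.2)
    ?_ ?_ ?_ ?_ ?_
  · intro q hq
    rw [Fintype.mem_piFinset] at hq
    rw [mem_product, Fintype.mem_piFinset]
    exact ⟨hq 0, fun i => hq i.succ⟩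
  · intro x hx
    rw [mem_product, Fintype.mem_piFinset] at hx
    rw [Fintype.mem_piFinset]
    intro i
    refine Fin.cases ?_ (fun j => ?_) i
    · exact hx.1
    · exact hx.2 j
  · intro q _
    funext i
    refine Fin.cases ?_ (fun j => ?_) i
    · rfl
    · rfl
  · intro x _
    rfl
  · intro q _
    show h (∏ i, q i) = h (q 0 * ∏ i : Fin r, q i.succ)
    rw [Fin.prod_univ_succ]

end Pool.Agent.CH.M2
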