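import Pool.Agent.Lib.MP_d610d0_nt.CH.M2.Stm

set_option autoImplicit false

namespace Pool.Agent.CH.M2

open Finset

private theorem tup3_split (S : Finset ℕ) (r : ℕ) (F : (Fin (r + 1) → ℕ) → ℝ) :
    ∑ q ∈ Fintype.piFinset (fun _ : Fin (r + 1) => S), F q =
      ∑ p ∈ S, ∑ q ∈ Fintype.piFinset (fun _ : Fin r => S), F (Fin.cons p q) := by
  rw [← Finset.sum_product' S (Fintype.piFinset (fun _ : Fin r => S))
    (fun p q => F (Fin.cons p q))]
  refine Finset.sum_nbij' (fun q => (q 0, fun i => q i.succ)) (fun x => Fin.cons x.1 x.2)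
    ?_ ?_ ?_ ?_ ?_
  · intro q hq
    rw [Fintype.mem_piFinset] at hq
    rw [mem_product, Fintype.mem_piFinset]
    exact ⟨hq 0, fun i => hq i.succ⟩
  · intro x hx
    rw [mem_product, Fintype.mem_piFinset] at hx
    rw [Fintype.mem_piFinset]
    intro i
    refine Fin.cases ?_ (fun j => ?_) i
    · exact hx.1
    · exact hx.2 j
  · intro q _
    funext i
    refine Fin.cases ?_ (fun j => ?_) i
    · rfl
    · rfl
  · intro x _
    rfl
  · intro q _
    congr 1
    funext i
    refine Fin.cases ?_ (fun j => ?_) i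
    · rfl
    · rfl

private theorem tup3_step (S : Finset ℕ) (m : ℕ → ℕ) (w a Ψ : ℕ → ℝ)
    (hΨ : ∀ i, 0 ≤ Ψ i) (hΨ0 : ∀ i, 112 ≤ i → Ψ i = 0)
    (ha : ∀ i, i < 112 → ∑ p ∈ S.filter (fun p => m p = i), w p ≤ a i) (s : ℕ) :
    ∑ p ∈ S, w p * Ψ (s + m p) ≤ Ust a Ψ s := by
  unfold Ust
  have h1 : ∑ p ∈ S, w p * Ψ (s + m p) =
      ∑ p ∈ S.filter (fun p => m p < 112), w p * Ψ (s + m p) := by
    symm
    apply Finset.sum_filter_of_ne
    intro p _ hne
    by_contra h
    exact hne (by rw [hΨ0 _ (by omega), mul_zero])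
  rw [h1, ← Finset.sum_fiberwise_of_maps_to (t := range 112) (g := m) (fun p hp => by
    rw [mem_filter] at hp
    exact mem_range.2 hp.2)]
  apply Finset.sum_le_sum
  intro i hi
  rw [mem_range] at hi
  have h2 : (S.filter (fun p => m p < 112)).filter (fun p => m p = i) =
      S.filter (fun p => m p = i) := by
    ext p
    simp only [mem_filter]
    constructor
    · rintro ⟨⟨h3, -⟩, h4⟩
      exact ⟨h3, h4⟩
    · rintro ⟨h3, h4⟩
      exact ⟨⟨h3, by omega⟩, h4⟩
  rw [h2]
  have h3 : ∑ p ∈ S.filter (fun p => m p = i), w p * Ψ (s + m p) =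
      (∑ p ∈ S.filter (fun p => m p = i), w p) * Ψ (s + i) := by
    rw [Finset.sum_mul]
    apply Finset.sum_congr rfl
    intro p hp
    rw [mem_filter] at hp
    rw [hp.2]
  rw [h3]
  exact mul_le_mul_of_nonneg_right (ha i hi) (hΨ _)

theorem p_tup3 : S_tup3 := by
  intro S m w a Φ r hw hΦ hΦ0 ha
  have ha0 : ∀ i, i < 112 → 0 ≤ a i := fun i hi =>
    le_trans (Finset.sum_nonneg (fun p hp => hw p (mem_filter.1 hp).1)) (ha i hi)
  have hΨ : ∀ r : ℕ, (∀ i, 0 ≤ ((Ust a)^[r] Φ) i) ∧ ∀ i, 112 ≤ i → ((Ust a)^[r] Φ) i = 0 := by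
    intro r
    induction r with
    | zero => exact ⟨hΦ, hΦ0⟩
    | succ r ih =>
      rw [Function.iterate_succ_apply']
      refine ⟨fun i => ?_, fun i hi => ?_⟩
      · exact Finset.sum_nonneg (fun j hj => mul_nonneg (ha0 j (mem_range.1 hj)) (ih.1 _))
      · exact Finset.sum_eq_zero (fun j _ => by rw [ih.2 _ (by omega), mul_zero])
  have key : ∀ (r s : ℕ), ∑ q ∈ Fintype.piFinset (fun _ : Fin r => S),
      (∏ i, w (q i)) * Φ (s + ∑ i, m (q i)) ≤ ((Ust a)^[r] Φ) s := by
    intro r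
    induction r with
    | zero =>
      intro s
      simp
    | succ r ih =>
      intro s
      rw [tup3_split, Function.iterate_succ_apply']
      refine le_trans ?_ (tup3_step S m w a _ (hΨ r).1 (hΨ r).2 ha s)
      apply Finset.sum_le_sum
      intro p hp
      refine le_trans (le_of_eq ?_) (mul_le_mul_of_nonneg_left (ih (s + m p)) (hw p hp))
      rw [Finset.mul_sum]
      apply Finset.sum_congr rfl
      intro q _
      rw [Fin.prod_univ_succ, Fin.sum_univ_succ]
      simp only [Fin.cons_zero, Fin.cons_succ]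
      rw [mul_assoc, ← add_assoc]
  have := key r 0
  simpa using this

end Pool.Agent.CH.M2
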