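import Pool.Agent.Lib.MP_d610d0_nt.CH.M2.tup1
import Pool.Agent.Lib.MP_d610d0_nt.CH.M2.tup2
import Pool.Agent.Lib.MP_d610d0_nt.CH.M2.tup3
import Pool.Agent.Lib.MP_d610d0_nt.CH.M2.log2
import Pool.Agent.Lib.MP_d610d0_nt.CH.M2.mer
import Pool.Agent.Lib.MP_d610d0_nt.CH.M2.cell
import Pool.Agent.Lib.MP_d610d0_nt.CH.M2.sh
import Pool.Agent.Lib.MP_d610d0_nt.CH.M2.win
import Pool.Agent.Lib.MP_d610d0_nt.CH.M2.ptw
import Pool.Agent.Lib.MP_d610d0_nt.CH.M2.num
import Pool.Agent.Lib.MP_d610d0_nt.CH.M2.lw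
import Pool.Agent.Lib.MP_d610d0_nt.CH.M2.fin

/-!
Section M2: assembly. `I_M2` from the prime number theorem and the comparison of the windows.
-/

set_option autoImplicit false

namespace Pool.Agent.CH.M2

theorem t_mer : S_mer := p_mer

theorem t_sh (hp : I_pnt) : S_sh := p_sh hp

/-- long windows, unconditional up to the prime number theorem -/
theorem t_lw (hp : I_pnt) : S_lw :=
  p_lw p_tup1 p_tup2 p_tup3 (p_cell p_log2 p_mer) (p_ptw (p_win (p_sh hp))) p_num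

/-- section M2 -/
theorem t_M2 (hp : I_pnt) (hc : I_cmp) : I_M2 := p_fin hc (t_lw hp)

end Pool.Agent.CH.M2
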