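import Pool.Agent.Lib.MP_d610d0_nt.CH.M2.Stm

set_option autoImplicit false

namespace Pool.Agent.CH.M2

/-- consistency check of the section: all pieces together give `I_M2` -/
theorem asm (tup1 : S_tup1) (tup2 : S_tup2) (tup3 : S_tup3) (log2 : S_log2) (mer : S_mer)
    (cell : S_log2 → S_mer → S_cell) (sh : I_pnt → S_sh) (win : S_sh → S_win)
    (ptw : S_win → S_ptw) (num : S_num)
    (lw : S_tup1 → S_tup2 → S_tup3 → S_cell → S_ptw → S_num → S_lw) (fin : S_fin)
    (hp : I_pnt) (hc : I_cmp) : I_M2 :=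
  fin hc (lw tup1 tup2 tup3 (cell log2 mer) (ptw (win (sh hp))) num)

end Pool.Agent.CH.M2
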