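import Pool.Agent.Lib.MP_d610d0_nt.CH.M2.Stm

set_option autoImplicit false

namespace Pool.Agent.CH.M2

open Finset
open Pool.Agent.MP89da58 (tri)

private lemma lw_wL_nonneg (lam : ℝ) (j n : ℕ) : 0 ≤ wL lam j n := by
  unfold wL tri
  exact le_max_left _ _

private lemma lw_Ph_nonneg (r M : ℕ) : 0 ≤ Ph r M := by
  unfold Ph
  split_ifs
  · positivity
  · exact le_rfl

private lemma lw_Ph_zero (r M : ℕ) (h : 112 ≤ M) : Ph r M = 0 := by
  unfold Ph
  rw [if_neg (by omega)]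

private lemma lw_key (h1 : S_tup1) (h2 : S_tup2) (h3 : S_tup3) (E J j N r : ℕ)
    (hlam : 0 ≤ Real.log J ^ E) (hz : 0 ≤ Real.log (zJ J))
    (hcell : ∀ i : ℕ, i < 112 →
      ∑ p ∈ (Sp (zJ J) N).filter (fun p => mz (zJ J) p = i), 1 / (p : ℝ) ≤ aR i)
    (hptw : ∀ q : Fin r → ℕ, (∀ i, q i ∈ Sp (zJ J) N) →
      Real.log J ^ E * ∑ p ∈ Sp (zJ J) N, wL (Real.log J ^ E) j (p * ∏ i, q i) ≤
        1.03 * ((j : ℝ) + 1 / 2) ^ 3 / Real.log (zJ J) *
          ((∏ i, 1 / (q i : ℝ)) * Ph r (∑ i, mz (zJ J) (q i)))) :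
    Real.log J ^ E * ∑ n ∈ Icc 1 N, Rk (zJ J) (r + 1) n * wL (Real.log J ^ E) j n ≤
      1.03 * ((j : ℝ) + 1 / 2) ^ 3 / Real.log (zJ J) *
        (1 / ((r + 1).factorial : ℝ) * ((Ust aR)^[r] (Ph r)) 0) := by
  have hf : (0 : ℝ) < ((r + 1).factorial : ℝ) := by exact_mod_cast Nat.factorial_pos _
  have hc : 0 ≤ 1.03 * ((j : ℝ) + 1 / 2) ^ 3 / Real.log (zJ J) := by positivity
  have e1 := h1 (zJ J) N (r + 1) (wL (Real.log J ^ E) j) (lw_wL_nonneg _ _)
  rw [h2] at e1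
  have e2 : Real.log J ^ E *
      TS (Sp (zJ J) N) r (fun P => ∑ p ∈ Sp (zJ J) N, wL (Real.log J ^ E) j (p * P)) ≤
      1.03 * ((j : ℝ) + 1 / 2) ^ 3 / Real.log (zJ J) * ((Ust aR)^[r] (Ph r)) 0 := by
    unfold TS
    rw [Finset.mul_sum]
    calc ∑ q ∈ Fintype.piFinset (fun _ : Fin r => Sp (zJ J) N),
          Real.log J ^ E * ∑ p ∈ Sp (zJ J) N, wL (Real.log J ^ E) j (p * ∏ i, q i)
        ≤ ∑ q ∈ Fintype.piFinset (fun _ : Fin r => Sp (zJ J) N),
          1.03 * ((j : ℝ) + 1 / 2) ^ 3 / Real.log (zJ J) *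
            ((∏ i, 1 / (q i : ℝ)) * Ph r (∑ i, mz (zJ J) (q i))) := by
          apply Finset.sum_le_sum
          intro q hq
          exact hptw q (Fintype.mem_piFinset.1 hq)
      _ = 1.03 * ((j : ℝ) + 1 / 2) ^ 3 / Real.log (zJ J) *
          ∑ q ∈ Fintype.piFinset (fun _ : Fin r => Sp (zJ J) N),
            (∏ i, 1 / (q i : ℝ)) * Ph r (∑ i, mz (zJ J) (q i)) := by
          rw [Finset.mul_sum]
      _ ≤ _ := by
          apply mul_le_mul_of_nonneg_left _ hc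
          exact h3 (Sp (zJ J) N) (mz (zJ J)) (fun p => 1 / (p : ℝ)) aR (Ph r) r
            (fun p _ => by positivity) (lw_Ph_nonneg r) (lw_Ph_zero r) hcell
  calc Real.log J ^ E * ∑ n ∈ Icc 1 N, Rk (zJ J) (r + 1) n * wL (Real.log J ^ E) j n
      ≤ Real.log J ^ E * (TS (Sp (zJ J) N) r
          (fun P => ∑ p ∈ Sp (zJ J) N, wL (Real.log J ^ E) j (p * P)) /
            ((r + 1).factorial : ℝ)) := mul_le_mul_of_nonneg_left e1 hlam
    _ = (Real.log J ^ E * TS (Sp (zJ J) N) r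
          (fun P => ∑ p ∈ Sp (zJ J) N, wL (Real.log J ^ E) j (p * P))) *
            (1 / ((r + 1).factorial : ℝ)) := by ring
    _ ≤ (1.03 * ((j : ℝ) + 1 / 2) ^ 3 / Real.log (zJ J) * ((Ust aR)^[r] (Ph r)) 0) *
            (1 / ((r + 1).factorial : ℝ)) :=
          mul_le_mul_of_nonneg_right e2 (by positivity)
    _ = _ := by ring

theorem p_lw (h1 : S_tup1) (h2 : S_tup2) (h3 : S_tup3) (h4 : S_cell) (h5 : S_ptw)
    (h6 : S_num) : S_lw := by
  intro E hE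
  obtain ⟨J1, hJ1⟩ := h4
  obtain ⟨J2, hJ2⟩ := h5 E hE
  refine ⟨max (max J1 J2) 3, ?_⟩
  intro J j hJ hj
  have hJ1' : J1 ≤ J := le_trans (le_trans (le_max_left _ _) (le_max_left _ _)) hJ
  have hJ2' : J2 ≤ J := le_trans (le_trans (le_max_right _ _) (le_max_left _ _)) hJ
  have hJ3 : 3 ≤ J := le_trans (le_max_right _ _) hJ
  have hJ3r : (3 : ℝ) ≤ (J : ℝ) := by exact_mod_cast hJ3
  have hL : 0 < Real.log J := Real.log_pos (by linarith)
  have hlam : 0 ≤ Real.log J ^ E := by positivity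
  have hlz : 8 * Real.log (zJ J) = 3 * Real.log (3 * (J : ℝ)) := by
    unfold zJ
    rw [Real.log_rpow (by positivity)]
    ring
  have hlz2 : 3 * Real.log J ≤ 8 * Real.log (zJ J) := by
    rw [hlz]
    have : Real.log J ≤ Real.log (3 * (J : ℝ)) := Real.log_le_log (by linarith) (by linarith)
    linarith
  have hz0 : 0 < Real.log (zJ J) := by linarith
  have key : ∀ r, Real.log J ^ E *
      ∑ n ∈ Icc 1 (27 * J ^ 3), Rk (zJ J) (r + 1) n * wL (Real.log J ^ E) j n ≤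
      1.03 * ((j : ℝ) + 1 / 2) ^ 3 / Real.log (zJ J) *
        (1 / ((r + 1).factorial : ℝ) * ((Ust aR)^[r] (Ph r)) 0) := fun r =>
    lw_key h1 h2 h3 E J j (27 * J ^ 3) r hlam hz0.le (fun i hi => hJ1 J hJ1' _ i hi)
      (fun q hq => hJ2 J j hJ2' hj _ r q hq)
  have hsum : Real.log J ^ E * ∑ n ∈ Icc 1 (27 * J ^ 3), RR (zJ J) n * wL (Real.log J ^ E) j n =
      ∑ r ∈ Icc 3 6, Real.log J ^ E *
        ∑ n ∈ Icc 1 (27 * J ^ 3), Rk (zJ J) (r + 1) n * wL (Real.log J ^ E) j n := by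
    rw [← Finset.mul_sum]
    congr 1
    have e1 : ∀ n, RR (zJ J) n * wL (Real.log J ^ E) j n =
        ∑ r ∈ Icc 3 6, Rk (zJ J) (r + 1) n * wL (Real.log J ^ E) j n := by
      intro n
      unfold RR
      rw [Finset.sum_mul]
      have e2 : (Icc 4 7 : Finset ℕ) = (Icc 3 6).image (fun r => r + 1) := by decide
      rw [e2, Finset.sum_image (fun a _ b _ h => by simpa using h)]
    simp only [e1]
    rw [Finset.sum_comm]
  rw [hsum]
  have h7 : ∑ r ∈ Icc 3 6, Real.log J ^ E *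
        ∑ n ∈ Icc 1 (27 * J ^ 3), Rk (zJ J) (r + 1) n * wL (Real.log J ^ E) j n ≤
      1.03 * ((j : ℝ) + 1 / 2) ^ 3 / Real.log (zJ J) * (0.379 / 8) := by
    calc _ ≤ ∑ r ∈ Icc 3 6, 1.03 * ((j : ℝ) + 1 / 2) ^ 3 / Real.log (zJ J) *
        (1 / ((r + 1).factorial : ℝ) * ((Ust aR)^[r] (Ph r)) 0) :=
          Finset.sum_le_sum fun r _ => key r
      _ = 1.03 * ((j : ℝ) + 1 / 2) ^ 3 / Real.log (zJ J) *
          ((∑ r ∈ Icc 3 6, 8 / ((r + 1).factorial : ℝ) * ((Ust aR)^[r] (Ph r)) 0) / 8) := by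
          rw [← Finset.mul_sum, Finset.sum_div]
          congr 1
          apply Finset.sum_congr rfl
          intro r _
          ring
      _ ≤ _ := by
          apply mul_le_mul_of_nonneg_left _ (by positivity)
          have := h6
          unfold S_num at this
          linarith
  refine h7.trans ?_
  have hx : 0 < ((j : ℝ) + 1 / 2) ^ 3 := by positivity
  have h8 : 1 / (8 * Real.log (zJ J)) ≤ 1 / (3 * Real.log J) :=
    one_div_le_one_div_of_le (by positivity) hlz2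
  calc 1.03 * ((j : ℝ) + 1 / 2) ^ 3 / Real.log (zJ J) * (0.379 / 8)
      = (1.03 * 0.379) * ((j : ℝ) + 1 / 2) ^ 3 * (1 / (8 * Real.log (zJ J))) := by
        field_simp
    _ ≤ (1.03 * 0.379) * ((j : ℝ) + 1 / 2) ^ 3 * (1 / (3 * Real.log J)) :=
        mul_le_mul_of_nonneg_left h8 (by positivity)
    _ ≤ 0.392 * ((j : ℝ) + 1 / 2) ^ 3 * (1 / (3 * Real.log J)) := by
        apply mul_le_mul_of_nonneg_right _ (by positivity)
        apply mul_le_mul_of_nonneg_right _ hx.le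
        norm_num
    _ = 0.392 * (((j : ℝ) + 1 / 2) ^ 3 / (3 * Real.log J)) := by ring

end Pool.Agent.CH.M2
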