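import Pool.Agent.Lib.MP_d610d0_nt.CH.M2.Stm

set_option autoImplicit false

namespace Pool.Agent.CH.M2

open Finset

theorem p_tup1 : S_tup1 := by
  intro z N k h hh
  have hk : (0 : ℝ) < k.factorial := by exact_mod_cast k.factorial_pos
  rw [le_div_iff₀ hk, Finset.sum_mul]
  unfold TS
  refine le_trans ?_ (Finset.sum_fiberwise_le_sum_of_sum_fiber_nonneg (t := Icc 1 N)
    (s := Fintype.piFinset (fun _ : Fin k => Sp z N)) (g := fun q => ∏ i, q i)
    (f := fun q => h (∏ i, q i)) (fun n _ => Finset.sum_nonneg (fun q _ => hh _)))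
  apply Finset.sum_le_sum
  intro n hn
  rw [mem_Icc] at hn
  unfold Rk
  rw [show (((Fintype.piFinset (fun _ : Fin k => (range (n + 1)).filter
    (fun p : ℕ => p.Prime ∧ z ≤ p))).filter (fun q => ∏ i, q i = n)).card : ℝ) / k.factorial *
    h n * k.factorial = (((Fintype.piFinset (fun _ : Fin k => (range (n + 1)).filter
    (fun p : ℕ => p.Prime ∧ z ≤ p))).filter (fun q => ∏ i, q i = n)).card : ℝ) * h n by
      field_simp]
  rw [← nsmul_eq_mul, ← Finset.sum_const]
  refine le_trans (le_of_eq ?_) (Finset.sum_le_sum_of_subset_of_nonneg (f := fun q : Fin k → ℕ =>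
    h (∏ i, q i)) (s := (Fintype.piFinset (fun _ : Fin k => (range (n + 1)).filter
    (fun p : ℕ => p.Prime ∧ z ≤ p))).filter (fun q => ∏ i, q i = n)) ?_ (fun q _ _ => hh _))
  · apply Finset.sum_congr rfl
    intro q hq
    rw [mem_filter] at hq
    rw [hq.2]
  · intro q hq
    rw [mem_filter, Fintype.mem_piFinset] at hq ⊢
    refine ⟨fun i => ?_, hq.2⟩
    have h1 := hq.1 i
    unfold Sp
    rw [mem_filter, mem_range] at h1 ⊢
    exact ⟨by omega, h1.2⟩

end Pool.Agent.CH.M2
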